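import Mathlib

/-! # Thresholds of the maximal multiplicity in almost Golomb sequences -/

set_option autoImplicit false

namespace Pool.Agent.Results.MP_ac9862_nt.Thresholds

open Finset

/-- The sum `a(n) + a(n-1) + … + a(n-r+1)`. Sequences are functions `ℕ → ℕ` with `a 0 = 0`; since
subtraction of natural numbers is truncated, this encodes the convention `a(k) = 0` for `k ≤ 0`. -/
def win (r : ℕ) (a : ℕ → ℕ) (n : ℕ) : ℕ := ∑ j ∈ range r, a (n - j)

/-- `a(1), a(2), …` is a nondecreasing sequence of positive integers (with `a(0) = 0`) and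
`a(a(n) + a(n-1) + … + a(n-r+1)) = n` for all `n ≥ 1`. -/
structure Admissible (r : ℕ) (a : ℕ → ℕ) : Prop where
  zero : a 0 = 0
  pos : ∀ n, 1 ≤ n → 1 ≤ a n
  mono : ∀ n, 1 ≤ n → a n ≤ a (n + 1)
  ident : ∀ n, 1 ≤ n → a (win r a n) = n

/-- The almost Golomb sequence of order `r`: the admissible sequence built greedily, i.e. each term
`a(n)` is the least value which, after the earlier terms, a term of an admissible sequence can have
(so it is the lexicographically least admissible sequence). -/
structure IsAlmostGolomb (r : ℕ) (a : ℕ → ℕ) : Prop where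
  adm : Admissible r a
  greedy : ∀ b, Admissible r b → ∀ n, (∀ k, k < n → b k = a k) → a n ≤ b n

/-- The maximal multiplicity `M = sup_n #{i ≥ 1 : a(i) = n}` of a value of the sequence `a`. -/
noncomputable def maxMult (a : ℕ → ℕ) : ℕ∞ := ⨆ n : ℕ, Set.encard {i : ℕ | 1 ≤ i ∧ a i = n}

/-- Golomb's sequence: positive integer values, nondecreasing, and every `n ≥ 1` occurs exactly
`G(n)` times (the value at `0` is not part of the sequence). -/
structure IsGolomb (G : ℕ → ℕ) : Prop where
  pos : ∀ n, 1 ≤ n → 1 ≤ G n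
  mono : ∀ n, 1 ≤ n → G n ≤ G (n + 1)
  mult : ∀ n, 1 ≤ n → Set.encard {i : ℕ | 1 ≤ i ∧ G i = n} = (G n : ℕ∞)

/-- `S(k) = G(1) + … + G(k)` -/
def S (G : ℕ → ℕ) (k : ℕ) : ℕ := ∑ n ∈ Icc 1 k, G n

/-! ## The construction -/

/-- the next term -/
def nxt (r : ℕ) (a : ℕ → ℕ) (x : ℕ) : ℕ :=
  if x = 0 then 1 else if x ≤ 2 then 2 else
    if win r a (a x + 1) = x + 1 then a x + 1 else a x

/-- the function whose values at `0,…,x` are the first terms -/
def F (r : ℕ) : ℕ → ℕ → ℕ
  | 0 => fun _ => 0
  | (x + 1) => Function.update (F r x) (x + 1) (nxt r (F r x) x)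

/-- the sequence -/
def g (r : ℕ) (x : ℕ) : ℕ := F r x x

theorem F_eq (r x y : ℕ) (h : x ≤ y) : F r y x = g r x := by
  induction y with
  | zero =>
    have : x = 0 := by omega
    subst this; rfl
  | succ y ih =>
    rcases Nat.lt_or_ge y x with h1 | h1
    · have : x = y + 1 := by omega
      subst this; rfl
    · rw [← ih h1, F, Function.update_of_ne (by omega)]

theorem g_zero (r : ℕ) : g r 0 = 0 := rfl

theorem win_congr (r : ℕ) (a b : ℕ → ℕ) (n : ℕ) (h : ∀ k, k ≤ n → a k = b k) :
    win r a n = win r b n :=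
  Finset.sum_congr rfl (fun j _ => h (n - j) (Nat.sub_le _ _))

theorem g_succ' (r x : ℕ) : g r (x + 1) = nxt r (F r x) x := by
  rw [g, F, Function.update_self]

theorem g_one (r : ℕ) : g r 1 = 1 := by rw [g_succ']; rfl

theorem g_two (r : ℕ) : g r 2 = 2 := by rw [g_succ']; rfl

theorem g_three (r : ℕ) : g r 3 = 2 := by rw [g_succ']; rfl

theorem g_le (r x : ℕ) (hx : 3 ≤ x) : g r x + 1 ≤ x := by
  induction x, hx using Nat.le_induction with
  | base => rw [g_three]
  | succ x hx ih =>
    rw [g_succ', nxt, if_neg (by omega), if_neg (by omega), F_eq r x x le_rfl]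
    split_ifs <;> omega

theorem g_succ (r x : ℕ) (hx : 3 ≤ x) :
    g r (x + 1) = if win r (g r) (g r x + 1) = x + 1 then g r x + 1 else g r x := by
  rw [g_succ', nxt, if_neg (by omega), if_neg (by omega), F_eq r x x le_rfl,
    win_congr r (F r x) (g r) (g r x + 1)]
  intro k hk
  exact F_eq r k x (by have := g_le r x hx; omega)

theorem g_step (r x : ℕ) : g r x ≤ g r (x + 1) ∧ g r (x + 1) ≤ g r x + 1 := by
  rcases Nat.lt_or_ge x 3 with h | h
  · interval_cases x
    · rw [g_zero, g_one]; omega
    · rw [g_one, g_two]; omega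
    · rw [g_two, g_three]; omega
  · rw [g_succ r x h]; split_ifs <;> omega

theorem g_mono (r : ℕ) : Monotone (g r) := monotone_nat_of_le_succ (fun x => (g_step r x).1)

theorem g_lip (r x d : ℕ) : g r (x + d) ≤ g r x + d := by
  induction d with
  | zero => simp
  | succ d ih => have := (g_step r (x + d)).2; rw [← add_assoc]; omega

theorem g_le_self (r x : ℕ) : g r x ≤ x := by
  have := g_lip r 0 x
  rw [g_zero, zero_add] at this; omega

theorem g_pos (r x : ℕ) (hx : 1 ≤ x) : 1 ≤ g r x := by
  have := g_mono r hx; rw [g_one] at this; exact this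

/-- the recursion for window sums -/
theorem win_succ (r : ℕ) (hr : 1 ≤ r) (a : ℕ → ℕ) (m : ℕ) :
    win r a (m + 1) + a (m + 1 - r) = win r a m + a (m + 1) := by
  obtain ⟨q, rfl⟩ : ∃ q, r = q + 1 := ⟨r - 1, by omega⟩
  rw [win, win, Finset.sum_range_succ', Finset.sum_range_succ]
  have h1 : ∀ k ∈ range q, a (m + 1 - (k + 1)) = a (m - k) := by
    intro k _; congr 1; omega
  rw [Finset.sum_congr rfl h1]
  have h2 : m + 1 - (q + 1) = m - q := by omega
  rw [h2]
  simp only [Nat.sub_zero]
  ring

theorem win_one (r : ℕ) (hr : 2 ≤ r) : win r (g r) 1 = 1 := by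
  have h := win_succ r (by omega) (g r) 0
  have h0 : win r (g r) 0 = 0 := by
    rw [win]; apply Finset.sum_eq_zero; intro j _; rw [Nat.zero_sub, g_zero]
  rw [h0, zero_add, g_one, show 1 - r = 0 by omega, g_zero] at h
  omega

theorem win_two (r : ℕ) (hr : 2 ≤ r) : win r (g r) 2 = 3 := by
  have h := win_succ r (by omega) (g r) 1
  rw [win_one r hr, show 1 + 1 = 2 by rfl, g_two, show 2 - r = 0 by omega, g_zero] at h
  omega

theorem win_three (r : ℕ) (hr : 2 ≤ r) :
    win r (g r) 3 = 5 - g r (3 - r) ∧ 4 ≤ win r (g r) 3 := by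
  have h := win_succ r (by omega) (g r) 2
  rw [win_two r hr, show 2 + 1 = 3 by rfl, g_three] at h
  have h2 : g r (3 - r) ≤ 1 := by
    have := g_mono r (show 3 - r ≤ 1 by omega); rw [g_one] at this; exact this
  omega

theorem main_inv (r : ℕ) (hr : 2 ≤ r) (x : ℕ) :
    ∀ y, y ≤ x → (3 ≤ y → win r (g r) (g r y) ≤ y ∧ y < win r (g r) (g r y + 1)) ∧
      (1 ≤ y → g r (y - r) + 1 ≤ g r y) := by
  induction x with
  | zero =>
    intro y hy
    have : y = 0 := by omega
    subst this
    exact ⟨fun h => by omega, fun h => by omega⟩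
  | succ x ih =>
    intro y hy
    rcases Nat.lt_or_ge y (x + 1) with h | h
    · exact ih y (by omega)
    have hyx : y = x + 1 := by omega
    subst hyx
    rcases Nat.lt_or_ge x 3 with h3 | h3
    · interval_cases x
      · refine ⟨fun h => by omega, fun _ => ?_⟩
        rw [show 0 + 1 - r = 0 by omega, g_zero, g_one]
      · refine ⟨fun h => by omega, fun _ => ?_⟩
        rw [show 1 + 1 - r = 0 by omega, g_zero, g_two]; omega
      · have h2 : g r (3 - r) ≤ 1 := by
          have := g_mono r (show 3 - r ≤ 1 by omega); rw [g_one] at this; exact this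
        refine ⟨fun _ => ?_, fun _ => ?_⟩
        · rw [show 2 + 1 = 3 by rfl, g_three, win_two r hr]
          have := (win_three r hr).2
          exact ⟨le_rfl, by rw [show 2 + 1 = 3 by rfl]; omega⟩
        · rw [show 2 + 1 = 3 by rfl, g_three]; omega
    · -- the main step
      obtain ⟨hI, -⟩ := ih x le_rfl
      obtain ⟨hI1, hI2⟩ := hI h3
      have hmx := g_le r x h3
      have hs := g_succ r x h3
      set m := g r x with hm
      have hm2 : 2 ≤ m := by
        have := g_mono r h3; rw [g_three] at this; exact this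
      by_cases hc : win r (g r) (m + 1) = x + 1
      · rw [if_pos hc] at hs
        have hmon : g r (x + 1 - r) ≤ m := g_mono r (by omega)
        have hstrict : g r (m + 2 - r) + 1 ≤ g r (m + 2) := by
          rcases Nat.lt_or_ge x (m + 2) with h4 | h4
          · have h5 : m + 2 = x + 1 := by omega
            rw [h5, hs]; omega
          · exact (ih (m + 2) h4).2 (by omega)
        have hw := win_succ r (by omega) (g r) (m + 1)
        rw [show m + 1 + 1 = m + 2 by rfl] at hw
        refine ⟨fun _ => ?_, fun _ => ?_⟩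
        · rw [hs]
          refine ⟨hc.le, ?_⟩
          rw [show m + 1 + 1 = m + 2 by rfl]
          omega
        · rw [hs]; omega
      · rw [if_neg hc] at hs
        refine ⟨fun _ => ?_, fun _ => ?_⟩
        · rw [hs]; exact ⟨by omega, by omega⟩
        · rw [hs]
          by_contra hcon
          push Not at hcon
          have hle : g r (x + 1 - r) ≤ m := g_mono r (by omega)
          have heq : g r (x + 1 - r) = m := by omega
          have hw := win_succ r (by omega) (g r) m
          have hgr : g r (m + 1) ≤ g r (m + 1 - r) + r := by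
            rcases Nat.lt_or_ge (m + 1) r with h6 | h6
            · have := g_le_self r (m + 1); omega
            · have := g_lip r (m + 1 - r) r
              rwa [show m + 1 - r + r = m + 1 by omega] at this
          rcases Nat.lt_or_ge (x + 1 - r) 3 with h7 | h7
          · have h8 : x + 1 - r = 2 := by
              have : 2 ≤ x + 1 - r := by
                by_contra h9
                have h10 : x + 1 - r ≤ 1 := by omega
                have := g_mono r h10
                rw [g_one, heq] at this; omega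
              omega
            rw [h8, g_two] at heq
            rw [← heq, show 2 + 1 = 3 by rfl] at hI2 hc
            have h9 := win_three r hr
            have h10 : r = 2 := by omega
            have h11 : g r (3 - r) = 1 := by rw [h10, show 3 - 2 = 1 by rfl, g_one]
            omega
          · obtain ⟨h8, -⟩ := ih (x + 1 - r) (by omega)
            obtain ⟨h9, -⟩ := h8 h7
            rw [heq] at h9
            omega

theorem inv1 (r : ℕ) (hr : 2 ≤ r) (y : ℕ) (hy : 3 ≤ y) :
    win r (g r) (g r y) ≤ y ∧ y < win r (g r) (g r y + 1) := (main_inv r hr y y le_rfl).1 hy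

theorem strict (r : ℕ) (hr : 2 ≤ r) (y : ℕ) (hy : 1 ≤ y) : g r (y - r) + 1 ≤ g r y :=
  (main_inv r hr y y le_rfl).2 hy

theorem win_lt (r : ℕ) (hr : 2 ≤ r) (m : ℕ) : win r (g r) m < win r (g r) (m + 1) := by
  have h1 := win_succ r (by omega) (g r) m
  have h2 := strict r hr (m + 1) (by omega)
  omega

theorem win_strictMono (r : ℕ) (hr : 2 ≤ r) : StrictMono (win r (g r)) :=
  strictMono_nat_of_lt_succ (win_lt r hr)

/-- for `m ≥ 3` the value at `y` is at least `m` iff `y ≥ win m` -/
theorem le_g_iff (r : ℕ) (hr : 2 ≤ r) (m y : ℕ) (hm : 3 ≤ m) :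
    m ≤ g r y ↔ win r (g r) m ≤ y := by
  have h4 : 4 ≤ win r (g r) m :=
    (win_three r hr).2.trans ((win_strictMono r hr).monotone hm)
  constructor
  · intro h
    have hy : 3 ≤ y := by
      by_contra hc
      have := g_mono r (show y ≤ 3 by omega)
      rw [g_three] at this; omega
    exact ((win_strictMono r hr).monotone h).trans (inv1 r hr y hy).1
  · intro h
    have h5 := (inv1 r hr y (by omega)).2
    have := (win_strictMono r hr).lt_iff_lt.mp (lt_of_le_of_lt h h5)
    omega

theorem g_adm (r : ℕ) (hr : 2 ≤ r) : Admissible r (g r) where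
  zero := g_zero r
  pos := g_pos r
  mono := fun n _ => (g_step r n).1
  ident := by
    intro n hn
    rcases Nat.lt_or_ge n 3 with h | h
    · interval_cases n
      · rw [win_one r hr, g_one]
      · rw [win_two r hr, g_three]
    · have h1 := (le_g_iff r hr n (win r (g r) n) h).mpr le_rfl
      have h2 : ¬ (n + 1 ≤ g r (win r (g r) n)) := by
        rw [le_g_iff r hr (n + 1) _ (by omega)]
        have := win_lt r hr n; omega
      omega

theorem adm_mono {r : ℕ} {b : ℕ → ℕ} (hb : Admissible r b) {x y : ℕ} (hx : 1 ≤ x) (h : x ≤ y) :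
    b x ≤ b y := by
  induction y, h using Nat.le_induction with
  | base => exact le_rfl
  | succ y hxy ih => exact ih.trans (hb.mono y (by omega))

theorem g_almost (r : ℕ) (hr : 2 ≤ r) : IsAlmostGolomb r (g r) where
  adm := g_adm r hr
  greedy := by
    intro b hb n hbn
    rcases Nat.lt_or_ge n 4 with h | h
    · have hb1 : 1 ≤ n → 1 ≤ b 1 := fun _ => hb.pos 1 le_rfl
      have hb2 : 2 ≤ n → 2 ≤ b 2 := by
        intro hn
        have h1 : b 1 = 1 := by rw [hbn 1 (by omega), g_one]
        have h2 := hb.pos 2 (by omega)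
        by_contra hc
        have h3 : b 2 = 1 := by omega
        have h4 := hb.ident 2 (by omega)
        have h5 : win r b 2 = 2 := by
          have e1 := win_succ r (by omega) b 0
          have e0 : win r b 0 = 0 := by
            rw [win]; apply Finset.sum_eq_zero; intro j _; rw [Nat.zero_sub, hb.zero]
          have e2 := win_succ r (by omega) b 1
          rw [show 0 + 1 = 1 by rfl, e0, show 1 - r = 0 by omega, hb.zero, h1] at e1
          rw [show 1 + 1 = 2 by rfl, show 2 - r = 0 by omega, hb.zero, h3] at e2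
          omega
        rw [h5, h3] at h4
        omega
      interval_cases n
      · rw [g_zero]; omega
      · rw [g_one]; exact hb1 (by omega)
      · rw [g_two]; exact hb2 (by omega)
      · rw [g_three]; exact (hb2 (by omega)).trans (hb.mono 2 (by omega))
    · set m := g r n with hm
      have h1 := (inv1 r hr n (by omega)).1
      rw [← hm] at h1
      have h2 : m + 1 ≤ n := g_le r n (by omega)
      have h3 : win r b m = win r (g r) m :=
        win_congr r b (g r) m (fun k hk => hbn k (by omega))
      have hm1 : 1 ≤ m := g_pos r n (by omega)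
      have h4 := hb.ident m hm1
      rw [h3] at h4
      have h5 : 1 ≤ win r (g r) m := by
        have := (win_strictMono r hr).monotone hm1
        rw [win_one r hr] at this; exact this
      calc m = b (win r (g r) m) := h4.symm
        _ ≤ b n := adm_mono hb h5 h1

theorem unique {r : ℕ} {a b : ℕ → ℕ} (ha : IsAlmostGolomb r a) (hb : IsAlmostGolomb r b) :
    a = b := by
  funext n
  induction n using Nat.strong_induction_on with
  | _ n ih =>
    apply le_antisymm
    · exact ha.greedy b hb.adm n (fun k hk => (ih k hk).symm)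
    · exact hb.greedy a ha.adm n (fun k hk => ih k hk)

/-! ## Multiplicities -/

theorem level (r : ℕ) (hr : 2 ≤ r) (m : ℕ) (hm : 3 ≤ m) :
    {i : ℕ | 1 ≤ i ∧ g r i = m} = Set.Ico (win r (g r) m) (win r (g r) (m + 1)) := by
  ext i
  simp only [Set.mem_ofPred_eq, Set.mem_Ico]
  have h1 := le_g_iff r hr m i hm
  have h2 := le_g_iff r hr (m + 1) i (by omega)
  have h3 : 1 ≤ win r (g r) m := by
    have := (win_strictMono r hr).monotone (show 1 ≤ m by omega)
    rw [win_one r hr] at this; exact this
  constructor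
  · rintro ⟨_, h⟩
    exact ⟨h1.mp h.ge, by by_contra hc; have := h2.mpr (by omega); omega⟩
  · rintro ⟨h4, h5⟩
    refine ⟨by omega, ?_⟩
    have := h1.mpr h4
    have h6 : ¬ (m + 1 ≤ g r i) := fun h => by have := h2.mp h; omega
    omega

/-- no value `w` with all smaller multiplicities at most `K` ... : shifting by `K` increases -/
theorem shift_lt (r : ℕ) (hr : 2 ≤ r) (K : ℕ) (hK : 3 ≤ K) (y : ℕ) (hy : 1 ≤ y)
    (hmul : 3 ≤ g r y → win r (g r) (g r y + 1) ≤ win r (g r) (g r y) + K) :
    g r y + 1 ≤ g r (y + K) := by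
  rcases Nat.lt_or_ge (g r y) 3 with h | h
  · rcases Nat.lt_or_ge (g r y) 2 with h2 | h2
    · -- value `1`: `y = 1`
      have : g r 2 ≤ g r (y + K) := g_mono r (by omega)
      rw [g_two] at this
      omega
    · have h3 : g r y = 2 := by omega
      have hy2 : 2 ≤ y := by
        by_contra hc
        have : y = 1 := by omega
        rw [this, g_one] at h3; omega
      rw [h3, show 2 + 1 = 3 by rfl, le_g_iff r hr 3 _ le_rfl]
      have := (win_three r hr).1
      omega
  · have h1 := hmul h
    have hy3 : 3 ≤ y := by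
      by_contra hc
      have := g_mono r (show y ≤ 3 by omega)
      rw [g_three] at this; omega
    rw [le_g_iff r hr _ _ (by omega)]
    have := (inv1 r hr y hy3).1
    omega

/-- telescoping of the window sums -/
theorem win_diff (r : ℕ) (a : ℕ → ℕ) (u K : ℕ) (h : ∀ j, j < r → a (u - j) + 1 ≤ a (u + K - j)) :
    win r a u + r ≤ win r a (u + K) := by
  have : ∑ j ∈ range r, (a (u - j) + 1) ≤ ∑ j ∈ range r, a (u + K - j) :=
    Finset.sum_le_sum (fun j hj => h j (Finset.mem_range.mp hj))
  rw [Finset.sum_add_distrib, Finset.sum_const, Finset.card_range, smul_eq_mul, mul_one] at this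
  exact this

/-- for `n ≤ r` the window sum is the full partial sum -/
theorem win_full (r : ℕ) (a : ℕ → ℕ) (h0 : a 0 = 0) (n : ℕ) (hn : n ≤ r) (hr : 1 ≤ r) :
    win r a n = ∑ i ∈ Icc 1 n, a i := by
  induction n with
  | zero =>
    rw [win]
    simp [h0]
  | succ n ih =>
    have h := win_succ r hr a n
    rw [show n + 1 - r = 0 by omega, h0, ih (by omega)] at h
    rw [Finset.sum_Icc_succ_top (by omega)]
    omega

/-- the bound for all multiplicities -/
theorem mult_le (r : ℕ) (hr : 2 ≤ r) (K : ℕ) (hK : 3 ≤ K) (hKr : g r r ≤ K) (M : ℕ) (hM : 3 ≤ M) :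
    win r (g r) (M + 1) ≤ win r (g r) M + K := by
  induction M using Nat.strong_induction_on with
  | _ M ih =>
    by_contra hcon
    push Not at hcon
    have hw := win_succ r (by omega) (g r) M
    set v := g r (M + 1 - r) with hv
    have h1 : v + K + 1 ≤ g r (M + 1) := by omega
    have h2 : win r (g r) (v + K + 1) ≤ M + 1 := (le_g_iff r hr _ _ (by omega)).mp h1
    have hgM := g_le r (M + 1) (by omega)
    -- the start of the run of `v + 1` lies after `M + 1 - r`
    have h3 : M + 1 < win r (g r) (v + 1) + r := by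
      rcases Nat.lt_or_ge (v + 1) 3 with h4 | h4
      · rcases Nat.lt_or_ge v 1 with h5 | h5
        · have h6 : v = 0 := by omega
          have h7 : M + 1 - r = 0 := by
            by_contra hc
            have := g_pos r (M + 1 - r) (by omega)
            omega
          rw [h6, show 0 + 1 = 1 by rfl, win_one r hr]; omega
        · have h6 : v = 1 := by omega
          have h7 : M + 1 - r ≤ 1 := by
            by_contra hc
            have := g_mono r (show 2 ≤ M + 1 - r by omega)
            rw [g_two] at this; omega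
          rw [h6, show 1 + 1 = 2 by rfl, win_two r hr]; omega
      · have h5 : ¬ (v + 1 ≤ g r (M + 1 - r)) := by omega
        rw [le_g_iff r hr _ _ h4] at h5
        omega
    rcases Nat.lt_or_ge (v + K + 1) r with h4 | h4
    · -- everything happens in the initial part
      have e1 := win_full r (g r) (g_zero r) (v + K + 1) (by omega) (by omega)
      have e2 := win_full r (g r) (g_zero r) (v + 1) (by omega) (by omega)
      have e3 := win_full r (g r) (g_zero r) (K + 1) (by omega) (by omega)
      have h5 : ¬ (K + 1 ≤ g r r) := by omega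
      rw [le_g_iff r hr _ _ (by omega)] at h5
      push Not at h5
      have e4 : ∑ i ∈ Icc 1 (v + K + 1), g r i =
          ∑ i ∈ Icc 1 (v + 1), g r i + ∑ i ∈ range K, g r (v + 2 + i) := by
        have : ∀ K', ∑ i ∈ Icc 1 (v + K' + 1), g r i =
          ∑ i ∈ Icc 1 (v + 1), g r i + ∑ i ∈ range K', g r (v + 2 + i) := by
          intro K'
          induction K' with
          | zero => simp
          | succ q ihq =>
            rw [show v + (q + 1) + 1 = (v + q + 1) + 1 by ring, Finset.sum_Icc_succ_top (by omega),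
              ihq, Finset.sum_range_succ, show v + q + 1 + 1 = v + 2 + q by ring]
            ring
        exact this K
      have e5 : ∑ i ∈ Icc 1 (K + 1), g r i = 1 + ∑ i ∈ range K, g r (2 + i) := by
        have : ∀ K', ∑ i ∈ Icc 1 (K' + 1), g r i = 1 + ∑ i ∈ range K', g r (2 + i) := by
          intro K'
          induction K' with
          | zero => simp [g_one]
          | succ q ihq =>
            rw [Finset.sum_Icc_succ_top (by omega), ihq, Finset.sum_range_succ,
              show q + 1 + 1 = 2 + q by ring]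
            ring
        exact this K
      have e6 : ∑ i ∈ range K, g r (2 + i) ≤ ∑ i ∈ range K, g r (v + 2 + i) :=
        Finset.sum_le_sum (fun i _ => g_mono r (by omega))
      omega
    · have h5 := win_diff r (g r) (v + 1) K (by
        intro j hj
        rcases Nat.lt_or_ge j (v + 1) with h6 | h6
        · have h7 : v + 1 + K - j = (v + 1 - j) + K := by omega
          rw [h7]
          apply shift_lt r hr K hK _ (by omega)
          intro h8
          apply ih _ _ h8
          have := g_le_self r (v + 1 - j)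
          omega
        · rw [show v + 1 - j = 0 by omega, g_zero]
          exact g_pos r _ (by omega))
      rw [show v + 1 + K = v + K + 1 by ring] at h5
      omega

theorem encard_Ico (x y : ℕ) : (Set.Ico x y).encard = ((y - x : ℕ) : ℕ∞) := by
  rw [← Finset.coe_Ico, Set.encard_coe_eq_coe_finsetCard, Nat.card_Ico]

theorem maxMult_le (r : ℕ) (hr : 2 ≤ r) (K : ℕ) (hK : 3 ≤ K) (hKr : g r r ≤ K) :
    maxMult (g r) ≤ (K : ℕ∞) := by
  apply iSup_le
  intro m
  rcases Nat.lt_or_ge m 3 with h | h
  · have h3 := win_three r hr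
    have hsub : {i : ℕ | 1 ≤ i ∧ g r i = m} ⊆ Set.Ico (m + (m - 1) * 0) (m + 3) := by
      intro i hi
      obtain ⟨hi1, hi2⟩ := hi
      rw [Set.mem_Ico]
      have hi5 : i < 5 := by
        by_contra hc
        have : 3 ≤ g r i := (le_g_iff r hr 3 i le_rfl).mpr (by omega)
        omega
      have hle := g_le_self r i
      have : m ≠ 0 := by
        rintro rfl
        have := g_pos r i hi1; omega
      rcases Nat.lt_or_ge m 2 with h4 | h4
      · have hm1 : m = 1 := by omega
        have : i < 2 := by
          by_contra hc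
          have := g_mono r (show 2 ≤ i by omega)
          rw [g_two] at this; omega
        omega
      · omega
    calc Set.encard {i : ℕ | 1 ≤ i ∧ g r i = m} ≤ (Set.Ico (m + (m - 1) * 0) (m + 3)).encard :=
          Set.encard_le_encard hsub
      _ = ((m + 3 - (m + (m - 1) * 0) : ℕ) : ℕ∞) := encard_Ico _ _
      _ ≤ (K : ℕ∞) := by exact_mod_cast (by omega)
  · rw [level r hr m h, encard_Ico]
    exact_mod_cast (by have := mult_le r hr K hK hKr m h; omega)

theorem le_maxMult (r : ℕ) (hr : 4 ≤ r) : (g r r : ℕ∞) ≤ maxMult (g r) := by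
  have h1 : Set.encard {i : ℕ | 1 ≤ i ∧ g r i = r - 1} = (g r r : ℕ∞) := by
    rw [level r (by omega) (r - 1) (by omega), encard_Ico]
    have hw := win_succ r (by omega) (g r) (r - 1)
    rw [show r - 1 + 1 = r by omega, Nat.sub_self, g_zero] at hw
    rw [show r - 1 + 1 = r by omega]
    congr 1
    omega
  rw [← h1]
  exact le_iSup (fun n : ℕ => Set.encard {i : ℕ | 1 ≤ i ∧ g r i = n}) (r - 1)

/-! ## Golomb's sequence -/

theorem S_succ (G : ℕ → ℕ) (k : ℕ) : S G (k + 1) = S G k + G (k + 1) := by
  rw [S, Finset.sum_Icc_succ_top (by omega), S]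

theorem S_zero (G : ℕ → ℕ) : S G 0 = 0 := by simp [S]

theorem golomb_mono {G : ℕ → ℕ} (hG : IsGolomb G) {x y : ℕ} (hx : 1 ≤ x) (h : x ≤ y) :
    G x ≤ G y := by
  induction y, h using Nat.le_induction with
  | base => exact le_rfl
  | succ y hxy ih => exact ih.trans (hG.mono y (by omega))

theorem golomb_count {G : ℕ → ℕ} (hG : IsGolomb G) (n : ℕ) :
    Set.encard {i : ℕ | 1 ≤ i ∧ G i ≤ n} = (S G n : ℕ∞) := by
  induction n with
  | zero =>
    rw [S_zero]
    have : {i : ℕ | 1 ≤ i ∧ G i ≤ 0} = ∅ := by
      ext i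
      simp only [Set.mem_ofPred_eq, Set.mem_empty_iff_false, iff_false]
      rintro ⟨h1, h2⟩
      have := hG.pos i h1; omega
    rw [this]; simp
  | succ n ih =>
    have : {i : ℕ | 1 ≤ i ∧ G i ≤ n + 1} =
        {i : ℕ | 1 ≤ i ∧ G i ≤ n} ∪ {i : ℕ | 1 ≤ i ∧ G i = n + 1} := by
      ext i
      simp only [Set.mem_ofPred_eq, Set.mem_union]
      omega
    rw [this, Set.encard_union_eq, ih, hG.mult (n + 1) (by omega), S_succ]
    · push_cast; rfl
    · rw [Set.disjoint_left]
      intro i hi hj
      simp only [Set.mem_ofPred_eq] at hi hj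
      omega

theorem golomb_le_iff {G : ℕ → ℕ} (hG : IsGolomb G) (n x : ℕ) (hx : 1 ≤ x) :
    G x ≤ n ↔ x ≤ S G n := by
  have hc := golomb_count hG n
  have hIcc : ∀ y : ℕ, Set.encard (Set.Icc 1 y) = (y : ℕ∞) := by
    intro y
    rw [← Finset.coe_Icc, Set.encard_coe_eq_coe_finsetCard, Nat.card_Icc]
    simp
  constructor
  · intro h
    have hsub : Set.Icc 1 x ⊆ {i : ℕ | 1 ≤ i ∧ G i ≤ n} := by
      intro i hi
      exact ⟨hi.1, (golomb_mono hG hi.1 hi.2).trans h⟩
    have := Set.encard_le_encard hsub
    rw [hc, hIcc] at this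
    exact_mod_cast this
  · intro h
    by_contra hcon
    push Not at hcon
    have hsub : {i : ℕ | 1 ≤ i ∧ G i ≤ n} ⊆ Set.Icc 1 (x - 1) := by
      intro i hi
      refine ⟨hi.1, ?_⟩
      by_contra h2
      have := golomb_mono hG hx (show x ≤ i by omega)
      have := hi.2
      omega
    have := Set.encard_le_encard hsub
    rw [hc, hIcc] at this
    have h3 : S G n ≤ x - 1 := by exact_mod_cast this
    omega

theorem golomb_one {G : ℕ → ℕ} (hG : IsGolomb G) : G 1 = 1 := by
  have h1 := hG.pos 1 le_rfl
  have h2 := golomb_le_iff hG 1 1 le_rfl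
  rw [S_succ, S_zero] at h2
  simp only [zero_add] at h2
  have := h2.mpr h1
  omega

theorem golomb_two {G : ℕ → ℕ} (hG : IsGolomb G) : G 2 = 2 := by
  have h2 := golomb_le_iff hG 1 2 (by omega)
  rw [S_succ, S_zero, zero_add, zero_add, golomb_one hG] at h2
  have h3 := golomb_le_iff hG 2 2 (by omega)
  rw [S_succ, S_succ, S_zero, zero_add, zero_add, golomb_one hG, show 1 + 1 = 2 by rfl] at h3
  have h4 : ¬ (G 2 ≤ 1) := fun h => by have := h2.mp h; omega
  have := h3.mpr (by omega)
  omega

theorem S_two {G : ℕ → ℕ} (hG : IsGolomb G) : S G 2 = 3 := by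
  rw [S_succ, S_succ, S_zero, zero_add, zero_add, golomb_one hG, show 1 + 1 = 2 by rfl,
    golomb_two hG]

theorem golomb_three {G : ℕ → ℕ} (hG : IsGolomb G) : G 3 = 2 := by
  have h1 := golomb_le_iff hG 2 3 (by omega)
  rw [S_two hG] at h1
  have h2 := golomb_mono hG (show 1 ≤ 2 by omega) (show 2 ≤ 3 by omega)
  rw [golomb_two hG] at h2
  have := h1.mpr le_rfl
  omega

theorem S_three {G : ℕ → ℕ} (hG : IsGolomb G) : S G 3 = 5 := by
  rw [S_succ, S_two hG, show 2 + 1 = 3 by rfl, golomb_three hG]

theorem golomb_four {G : ℕ → ℕ} (hG : IsGolomb G) : 3 ≤ G 4 := by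
  have h1 := golomb_le_iff hG 2 4 (by omega)
  rw [S_two hG] at h1
  by_contra hc
  have := h1.mp (by omega)
  omega

theorem S_ge {G : ℕ → ℕ} (hG : IsGolomb G) (n : ℕ) : n ≤ S G n := by
  induction n with
  | zero => omega
  | succ n ih => rw [S_succ]; have := hG.pos (n + 1) (by omega); omega

theorem S_mono {G : ℕ → ℕ} : Monotone (S G) :=
  monotone_nat_of_le_succ (fun n => by rw [S_succ]; omega)

/-- the comparison of the initial part of `a_r` with Golomb's sequence -/
theorem compare {G : ℕ → ℕ} (hG : IsGolomb G) (r : ℕ) (hr : 2 ≤ r) (x : ℕ) (hxr : x ≤ r) :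
    (3 ≤ x → g r x = G (x - 1)) ∧ (2 ≤ x → win r (g r) x = S G (x - 1) + 2) := by
  induction x using Nat.strong_induction_on with
  | _ x ih =>
    have key : 3 ≤ x → g r x = G (x - 1) := by
      intro h3
      rcases Nat.lt_or_ge x 4 with h4 | h4
      · have : x = 3 := by omega
        subst this
        rw [g_three, show 3 - 1 = 2 by rfl, golomb_two hG]
      · have h5 : ∀ m, 3 ≤ m → m < x → (m ≤ g r x ↔ m ≤ G (x - 1)) := by
          intro m hm hmx
          rw [le_g_iff r hr m x hm, (ih m hmx (by omega)).2 (by omega)]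
          have h6 := golomb_le_iff hG (m - 1) (x - 1) (by omega)
          constructor
          · intro h7
            by_contra h8
            have := h6.mp (by omega)
            omega
          · intro h7
            by_contra h8
            have := h6.mpr (by omega)
            omega
        have h6 : 2 ≤ g r x := by
          have := g_mono r (show 3 ≤ x by omega)
          rw [g_three] at this; exact this
        have h7 : 2 ≤ G (x - 1) := by
          have := golomb_mono hG (show 1 ≤ 2 by omega) (show 2 ≤ x - 1 by omega)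
          rw [golomb_two hG] at this; exact this
        have h8 := g_le r x h3
        have h9 : G (x - 1) ≤ x - 1 := (golomb_le_iff hG _ _ (by omega)).mpr (S_ge hG _)
        apply le_antisymm
        · rcases Nat.lt_or_ge (g r x) 3 with h10 | h10
          · omega
          · exact (h5 _ h10 (by omega)).mp le_rfl
        · rcases Nat.lt_or_ge (G (x - 1)) 3 with h10 | h10
          · omega
          · exact (h5 _ h10 (by omega)).mpr le_rfl
    refine ⟨key, ?_⟩
    intro h2
    rcases Nat.lt_or_ge x 3 with h3 | h3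
    · have : x = 2 := by omega
      subst this
      rw [win_two r hr, show 2 - 1 = 0 + 1 by rfl, S_succ, S_zero, zero_add, zero_add,
        golomb_one hG]
    · obtain ⟨y, rfl⟩ : ∃ y, x = y + 1 := ⟨x - 1, by omega⟩
      have h4 := win_succ r (by omega) (g r) y
      rw [show y + 1 - r = 0 by omega, g_zero, key h3,
        (ih y (by omega) (by omega)).2 (by omega)] at h4
      obtain ⟨z, rfl⟩ : ∃ z, y = z + 1 := ⟨y - 1, by omega⟩
      simp only [Nat.add_sub_cancel] at h4 ⊢
      rw [S_succ]
      omega

theorem maxMult_eq {G : ℕ → ℕ} (hG : IsGolomb G) (r : ℕ) (hr : 5 ≤ r) :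
    maxMult (g r) = (G (r - 1) : ℕ∞) := by
  have h1 := (compare hG r (by omega) r le_rfl).1 (by omega)
  have h2 : 3 ≤ G (r - 1) :=
    (golomb_four hG).trans (golomb_mono hG (by omega) (by omega))
  apply le_antisymm
  · exact maxMult_le r (by omega) _ h2 h1.le
  · rw [← h1]; exact le_maxMult r (by omega)

theorem maxMult_small {G : ℕ → ℕ} (hG : IsGolomb G) (r : ℕ) (hr : 2 ≤ r) (hr4 : r ≤ 4) :
    maxMult (g r) ≤ (3 : ℕ) := by
  apply maxMult_le r hr 3 le_rfl
  have h1 := g_mono r hr4
  have h2 : r = 4 ∨ r ≤ 3 := by omega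
  rcases h2 with h | h
  · subst h
    rw [(compare hG 4 (by omega) 4 le_rfl).1 (by omega), show 4 - 1 = 3 by rfl, golomb_three hG]
    omega
  · have h3 := g_le_self r r
    omega

theorem threshold {G : ℕ → ℕ} (hG : IsGolomb G) (k : ℕ) (hk : 4 ≤ k) :
    IsLeast {r : ℕ | 2 ≤ r ∧ (k : ℕ∞) ≤ maxMult (g r)} (S G (k - 1) + 2) := by
  have h5 : 5 ≤ S G (k - 1) := by
    have := S_mono (G := G) (show 3 ≤ k - 1 by omega)
    rwa [S_three hG] at this
  constructor
  · refine ⟨by omega, ?_⟩
    rw [maxMult_eq hG _ (by omega)]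
    have h6 := golomb_le_iff hG (k - 1) (S G (k - 1) + 2 - 1) (by omega)
    have h7 : ¬ (G (S G (k - 1) + 2 - 1) ≤ k - 1) := fun h => by
      have := h6.mp h; omega
    exact_mod_cast (by omega)
  · rintro r ⟨hr, hkr⟩
    rcases Nat.lt_or_ge r 5 with h6 | h6
    · have h7 := hkr.trans (maxMult_small hG r hr (by omega))
      have h8 : k ≤ 3 := by exact_mod_cast h7
      omega
    · rw [maxMult_eq hG r h6] at hkr
      have h7 : k ≤ G (r - 1) := by exact_mod_cast hkr
      have h8 := golomb_le_iff hG (k - 1) (r - 1) (by omega)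
      have h9 : ¬ (r - 1 ≤ S G (k - 1)) := fun h => by have := h8.mpr h; omega
      omega

/-! ## Existence of Golomb's sequence -/

/-- construction of Golomb's sequence -/
def FG : ℕ → ℕ → ℕ
  | 0 => fun _ => 0
  | (x + 1) => Function.update (FG x) (x + 1)
      (if x = 0 then 1 else if x = 1 then 2 else
        if S (FG x) (FG x x) ≤ x then FG x x + 1 else FG x x)

/-- Golomb's sequence -/
def gol (x : ℕ) : ℕ := FG x x

theorem FG_eq (x y : ℕ) (h : x ≤ y) : FG y x = gol x := by
  induction y with
  | zero =>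
    have : x = 0 := by omega
    subst this; rfl
  | succ y ih =>
    rcases Nat.lt_or_ge y x with h1 | h1
    · have : x = y + 1 := by omega
      subst this; rfl
    · rw [← ih h1, FG, Function.update_of_ne (by omega)]

theorem gol_succ' (x : ℕ) : gol (x + 1) =
    if x = 0 then 1 else if x = 1 then 2 else
        if S (FG x) (FG x x) ≤ x then FG x x + 1 else FG x x := by
  rw [gol, FG, Function.update_self]

theorem gol_one : gol 1 = 1 := by rw [gol_succ']; rfl

theorem gol_two : gol 2 = 2 := by rw [gol_succ']; rfl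

theorem gol_le (x : ℕ) : gol x ≤ x := by
  induction x with
  | zero => exact le_rfl
  | succ x ih =>
    rw [gol_succ', FG_eq x x le_rfl]
    split_ifs <;> omega

theorem gol_succ (x : ℕ) (hx : 2 ≤ x) :
    gol (x + 1) = if S gol (gol x) ≤ x then gol x + 1 else gol x := by
  rw [gol_succ', if_neg (by omega), if_neg (by omega), FG_eq x x le_rfl]
  have : S (FG x) (gol x) = S gol (gol x) := by
    apply Finset.sum_congr rfl
    intro i hi
    rw [Finset.mem_Icc] at hi
    exact FG_eq i x (hi.2.trans (gol_le x))
  rw [this]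

theorem gol_step (x : ℕ) : gol x ≤ gol (x + 1) := by
  rcases Nat.lt_or_ge x 2 with h | h
  · interval_cases x
    · exact Nat.zero_le _
    · rw [gol_one, gol_two]; omega
  · rw [gol_succ x h]; split_ifs <;> omega

theorem gol_pos (x : ℕ) (hx : 1 ≤ x) : 1 ≤ gol x := by
  have := (monotone_nat_of_le_succ gol_step) hx
  rw [gol_one] at this; exact this

theorem gol_inv (x : ℕ) (hx : 1 ≤ x) : S gol (gol x - 1) < x ∧ x ≤ S gol (gol x) := by
  induction x, hx using Nat.le_induction with
  | base =>
    rw [gol_one, Nat.sub_self, S_zero, S_succ, S_zero, zero_add, gol_one]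
    omega
  | succ x hx ih =>
    rcases Nat.lt_or_ge x 2 with h | h
    · have : x = 1 := by omega
      subst this
      rw [show 1 + 1 = 2 by rfl, gol_two, show 2 - 1 = 0 + 1 by rfl, S_succ, S_succ, S_zero,
        zero_add, zero_add, gol_one, show 1 + 1 = 2 by rfl, gol_two]
      omega
    · rw [gol_succ x h]
      split_ifs with hc
      · rw [Nat.add_sub_cancel, S_succ]
        have := gol_pos (gol x + 1) (by omega)
        omega
      · omega

theorem gol_isGolomb : IsGolomb gol where
  pos := gol_pos
  mono := fun n _ => gol_step n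
  mult := by
    intro n hn
    have hset : {i : ℕ | 1 ≤ i ∧ gol i = n} = Set.Ico (S gol (n - 1) + 1) (S gol n + 1) := by
      ext i
      simp only [Set.mem_ofPred_eq, Set.mem_Ico]
      constructor
      · rintro ⟨h1, rfl⟩
        have := gol_inv i h1
        omega
      · rintro ⟨h1, h2⟩
        refine ⟨by omega, ?_⟩
        have h3 := gol_inv i (by omega)
        by_contra hne
        rcases Nat.lt_or_ge (gol i) n with h4 | h4
        · have := S_mono (G := gol) (show gol i ≤ n - 1 by omega)
          omega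
        · have := S_mono (G := gol) (show n ≤ gol i - 1 by omega)
          omega
    rw [hset, encard_Ico]
    obtain ⟨m, rfl⟩ : ∃ m, n = m + 1 := ⟨n - 1, by omega⟩
    rw [Nat.add_sub_cancel, S_succ]
    congr 1
    omega

/-- **Thresholds of the maximal multiplicity in almost Golomb sequences.** Golomb's sequence `G`
exists, for each `r ≥ 2` there is exactly one almost Golomb sequence `a_r`, and for every `k ≥ 4`
the threshold `j_k` (the least `r ≥ 2` with `M(r) ≥ k`) exists and equals `S(k-1) + 2`, and
`j_{k+1}` exists and `j_{k+1} - j_k = G(k)`. -/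
theorem result :
    (∃ G : ℕ → ℕ, IsGolomb G) ∧
    (∀ r : ℕ, 2 ≤ r → ∃! a : ℕ → ℕ, IsAlmostGolomb r a) ∧
    ∀ a : ℕ → ℕ → ℕ, (∀ r : ℕ, 2 ≤ r → IsAlmostGolomb r (a r)) →
      ∀ G : ℕ → ℕ, IsGolomb G → ∀ k : ℕ, 4 ≤ k →
        ∃ j j' : ℕ,
          IsLeast {r : ℕ | 2 ≤ r ∧ (k : ℕ∞) ≤ maxMult (a r)} j ∧
          IsLeast {r : ℕ | 2 ≤ r ∧ ((k + 1 : ℕ) : ℕ∞) ≤ maxMult (a r)} j' ∧
          j = S G (k - 1) + 2 ∧ j' = j + G k := by
  refine ⟨⟨gol, gol_isGolomb⟩, fun r hr => ⟨g r, g_almost r hr, fun b hb =>
    unique hb (g_almost r hr)⟩, ?_⟩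
  intro a ha G hG k hk
  have hset : ∀ c : ℕ∞, {r : ℕ | 2 ≤ r ∧ c ≤ maxMult (a r)} =
      {r : ℕ | 2 ≤ r ∧ c ≤ maxMult (g r)} := by
    intro c
    ext r
    simp only [Set.mem_ofPred_eq]
    constructor
    · rintro ⟨h1, h2⟩
      exact ⟨h1, by rwa [← unique (ha r h1) (g_almost r h1)]⟩
    · rintro ⟨h1, h2⟩
      exact ⟨h1, by rwa [unique (ha r h1) (g_almost r h1)]⟩
  refine ⟨S G (k - 1) + 2, S G (k - 1) + 2 + G k, ?_, ?_, rfl, rfl⟩
  · rw [hset]; exact threshold hG k hk
  · rw [hset]
    have := threshold hG (k + 1) (by omega)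
    rw [Nat.add_sub_cancel] at this
    have h2 : S G k = S G (k - 1) + G k := by
      obtain ⟨m, rfl⟩ : ∃ m, k = m + 1 := ⟨k - 1, by omega⟩
      rw [S_succ, Nat.add_sub_cancel]
    rw [h2] at this
    rw [show S G (k - 1) + 2 + G k = S G (k - 1) + G k + 2 by ring]
    exact this

end Pool.Agent.Results.MP_ac9862_nt.Thresholds
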